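import Pool.Agent.SHP.Stmts

/-! Row NER: the equation near the diagonal. -/

set_option autoImplicit false

namespace Pool.Agent.SHP.H76

theorem core (hK : KeyStmt) (s d b1 b2 N n2 z : ℕ) (hd : 9 ≤ d) (h12 : d ^ 12 ≤ s)
    (hb1 : 0 < b1) (hb2 : 0 < b2) (hco : Nat.Coprime b1 b2) (hsum : b1 + b2 = s ^ 2)
    (hdiff : |(b1 : ℤ) - b2| = (d : ℤ) ^ 2) (h3 : s ^ 2 ≤ 3 * b1) (hn : n2 < N)
    (heq : b1 ^ N + b2 ^ n2 = (s * d) ^ z) : False := by
  have hd0 : 0 < d := by omega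
  have hs0 : 0 < s := lt_of_lt_of_le (pow_pos hd0 12) h12
  have hN : 0 < N := by omega
  -- z < 2 N
  have hz : z < 2 * N := by
    by_contra hcon
    rw [not_lt] at hcon
    have hsd : 1 ≤ s * d := Nat.mul_pos hs0 hd0
    have h1 : (s * d) ^ (2 * N) ≤ (s * d) ^ z := Nat.pow_le_pow_right hsd hcon
    have h2 : b1 ^ N + b2 ^ N ≤ (b1 + b2) ^ N :=
      pow_add_pow_le (Nat.zero_le _) (Nat.zero_le _) hN.ne'
    have h3 : b2 ^ n2 ≤ b2 ^ N := Nat.pow_le_pow_right hb2 hn.le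
    have h4 : (b1 + b2) ^ N = s ^ (2 * N) := by rw [hsum, ← pow_mul]
    have h5 : (s * d) ^ (2 * N) = s ^ (2 * N) * d ^ (2 * N) := mul_pow _ _ _
    have h6 : 1 < d ^ (2 * N) := Nat.one_lt_pow (by omega) (by omega)
    have h7 : 0 < s ^ (2 * N) := pow_pos hs0 _
    have h8 : s ^ (2 * N) * 1 < s ^ (2 * N) * d ^ (2 * N) :=
      Nat.mul_lt_mul_of_pos_left h6 h7
    omega
  obtain ⟨w, hw⟩ : ∃ w, w + z = 2 * N := ⟨2 * N - z, by omega⟩
  have hw1 : 1 ≤ w := by omega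
  have hUV : s ^ w * (s * d) ^ z = d ^ z * (b1 + b2) ^ N := by
    rw [hsum, mul_pow, ← pow_mul, ← hw, pow_add]
    ring
  -- 4 w ≤ N
  have h4w : 4 * w ≤ N := by
    have h1 : s ^ w * b1 ^ N ≤ d ^ z * (b1 + b2) ^ N := by
      rw [← hUV, ← heq]
      exact Nat.mul_le_mul_left _ (Nat.le_add_right _ _)
    have h2 : (b1 + b2) ^ N ≤ 3 ^ N * b1 ^ N := by
      rw [hsum, ← mul_pow]
      exact Nat.pow_le_pow_left h3 N
    have h5 : s ^ w * (b1 + b2) ^ N ≤ (3 ^ N * d ^ z) * (b1 + b2) ^ N := by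
      calc s ^ w * (b1 + b2) ^ N ≤ s ^ w * (3 ^ N * b1 ^ N) := Nat.mul_le_mul_left _ h2
        _ = 3 ^ N * (s ^ w * b1 ^ N) := by ring
        _ ≤ 3 ^ N * (d ^ z * (b1 + b2) ^ N) := Nat.mul_le_mul_left _ h1
        _ = (3 ^ N * d ^ z) * (b1 + b2) ^ N := by ring
    have h6 : s ^ w ≤ 3 ^ N * d ^ z :=
      Nat.le_of_mul_le_mul_right h5 (pow_pos (by omega) _)
    have h7 : d ^ (13 * w) ≤ d ^ (3 * N) := by
      calc d ^ (13 * w) = (d ^ 12) ^ w * d ^ w := by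
            rw [← pow_mul, ← pow_add]
            congr 1
            ring
        _ ≤ s ^ w * d ^ w := Nat.mul_le_mul_right _ (Nat.pow_le_pow_left h12 w)
        _ ≤ (3 ^ N * d ^ z) * d ^ w := Nat.mul_le_mul_right _ h6
        _ = 3 ^ N * d ^ (2 * N) := by
            rw [mul_assoc, ← pow_add, Nat.add_comm z w, hw]
        _ ≤ d ^ N * d ^ (2 * N) := Nat.mul_le_mul_right _ (Nat.pow_le_pow_left (by omega) N)
        _ = d ^ (3 * N) := by
            rw [← pow_add]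
            congr 1
            ring
    have h8 : 13 * w ≤ 3 * N := (Nat.pow_le_pow_iff_right (by omega)).1 h7
    omega
  have h24 : d ^ 24 ≤ s ^ 2 := by
    calc d ^ 24 = (d ^ 12) ^ 2 := by rw [← pow_mul]
      _ ≤ s ^ 2 := Nat.pow_le_pow_left h12 2
  have h81 : 81 ^ 12 ≤ s ^ 2 := by
    refine le_trans ?_ h24
    calc 81 ^ 12 = 9 ^ 24 := by norm_num
      _ ≤ d ^ 24 := Nat.pow_le_pow_left hd 24
  have hsumZ : (b1 : ℤ) + b2 = (s : ℤ) ^ 2 := by exact_mod_cast hsum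
  refine hK (b1 : ℤ) (b2 : ℤ) ((s : ℤ) ^ w) ((d : ℤ) ^ z) 1 N n2 w (Or.inl rfl)
    (by exact_mod_cast hb1) (by exact_mod_cast hb2) (Nat.isCoprime_iff_coprime.2 hco)
    (by positivity) (by positivity) hn hw1 h4w ?_ ?_ ?_ ?_ ?_
  · rw [one_mul, ← mul_add]
    have h1 : s ^ w * (b1 ^ N + b2 ^ n2) = d ^ z * (b1 + b2) ^ N := by rw [heq, hUV]
    exact_mod_cast h1
  · rw [hsumZ, ← pow_mul, ← pow_mul, mul_comm]
  · rw [hsumZ, hdiff, ← pow_mul]
    exact_mod_cast h24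
  · intro h
    rw [h, sub_self, abs_zero] at hdiff
    have : (0 : ℤ) < (d : ℤ) ^ 2 := by positivity
    omega
  · rw [hsumZ]
    exact_mod_cast h81

/-- NER -/
theorem ner (hK : KeyStmt) : NerStmt := by
  intro f g x y z hg hgf hco hodd hd9 h12 hx hy hz heq
  obtain ⟨d, rfl⟩ : ∃ d, f = g + d := ⟨f - g, by omega⟩
  have hd : g + d - g = d := by omega
  rw [hd] at hd9 h12
  obtain ⟨s, hs⟩ : ∃ s, s = g + d + g := ⟨_, rfl⟩
  rw [← hs] at h12 hodd
  have hdodd : Odd d := by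
    rw [hs] at hodd
    rw [Nat.odd_iff] at hodd ⊢
    omega
  have hA : (g + d) ^ 2 - g ^ 2 = s * d := by
    rw [hs]
    have : (g + d) ^ 2 = (g + d + g) * d + g ^ 2 := by ring
    rw [this, Nat.add_sub_cancel]
  rw [hA] at heq
  have hcg : Nat.Coprime d g := by
    have : Nat.Coprime (g + d) g := hco
    rwa [Nat.coprime_self_add_left] at this
  have hcf : Nat.Coprime d (g + d) := by
    rw [Nat.coprime_add_self_right]
    exact hcg
  have hc2 : Nat.Coprime d 2 := by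
    rw [Nat.coprime_two_right]
    exact hdodd
  have hdB : Nat.Coprime d (2 * (g + d) * g) := (hc2.mul_right hcf).mul_right hcg
  have hCB : Nat.Coprime ((g + d) ^ 2 + g ^ 2) (2 * (g + d) * g) := by
    have hc : Nat.Coprime (g + d) g := hco
    have h1 : Nat.Coprime ((g + d) ^ 2 + g ^ 2) 2 := by
      rw [Nat.coprime_two_right]
      rw [hs] at hodd
      have h2 : (g + d) ^ 2 + g ^ 2 = (g + d + g) * (g + d + g) - 2 * ((g + d) * g) := by
        have : (g + d + g) * (g + d + g) = (g + d) ^ 2 + g ^ 2 + 2 * ((g + d) * g) := by ring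
        rw [this, Nat.add_sub_cancel]
      have h3 : Odd ((g + d + g) * (g + d + g)) := hodd.mul hodd
      have h4 : (g + d + g) * (g + d + g) = (g + d) ^ 2 + g ^ 2 + 2 * ((g + d) * g) := by ring
      rw [h4] at h3
      rw [Nat.odd_iff] at h3 ⊢
      omega
    have h2 : Nat.Coprime ((g + d) ^ 2 + g ^ 2) (g + d) := by
      have h3 : (g + d) ^ 2 + g ^ 2 = g ^ 2 + (g + d) * (g + d) := by ring
      rw [h3, Nat.coprime_add_mul_left_left]
      exact hc.symm.pow_left 2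
    have h3 : Nat.Coprime ((g + d) ^ 2 + g ^ 2) g := by
      have h4 : (g + d) ^ 2 + g ^ 2 = (g + d) ^ 2 + g * g := by ring
      rw [h4, Nat.coprime_add_mul_left_left]
      exact hc.pow_left 2
    exact (h1.mul_right h2).mul_right h3
  have hsum : ((g + d) ^ 2 + g ^ 2) + 2 * (g + d) * g = s ^ 2 := by
    rw [hs]
    ring
  have hdiff : ((g + d) ^ 2 + g ^ 2) = 2 * (g + d) * g + d ^ 2 := by ring
  have hC0 : 0 < (g + d) ^ 2 + g ^ 2 := by positivity
  have hB0 : 0 < 2 * (g + d) * g := by positivity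
  have hsd : 3 * d ≤ s := by
    have h1 : d * 3 ≤ d ^ 12 := by
      calc d * 3 ≤ d * d ^ 11 := by
            apply Nat.mul_le_mul_left
            calc 3 ≤ d := by omega
              _ = d ^ 1 := (pow_one d).symm
              _ ≤ d ^ 11 := Nat.pow_le_pow_right (by omega) (by omega)
        _ = d ^ 12 := by ring
    omega
  have hs9 : 9 * d ^ 2 ≤ s ^ 2 := by
    calc 9 * d ^ 2 = (3 * d) ^ 2 := by ring
      _ ≤ s ^ 2 := Nat.pow_le_pow_left hsd 2
  obtain ⟨C, hC⟩ : ∃ C, C = (g + d) ^ 2 + g ^ 2 := ⟨_, rfl⟩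
  obtain ⟨B, hB⟩ : ∃ B, B = 2 * (g + d) * g := ⟨_, rfl⟩
  rw [← hC, ← hB] at heq hCB hsum hdiff
  rw [← hB] at hdB
  rw [← hC] at hC0
  rw [← hB] at hB0
  rcases lt_trichotomy x y with hxy | hxy | hxy
  · refine core hK s d B C y x z hd9 h12 hB0 hC0 hCB.symm (by omega) ?_ (by omega) hxy
      (by rw [add_comm, heq])
    have h1 : (B : ℤ) - C = -((d : ℤ) ^ 2) := by
      have : (C : ℤ) = B + (d : ℤ) ^ 2 := by exact_mod_cast hdiff
      rw [this]
      ring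
    rw [h1, abs_neg, abs_of_nonneg (by positivity)]
  · subst hxy
    have h1 : d ∣ C ^ x + B ^ x := by
      rw [heq]
      exact (Dvd.intro_left s rfl).trans (dvd_pow_self _ hz.ne')
    have h2 : (C : ℤ) ^ x ≡ (B : ℤ) ^ x [ZMOD d] := by
      apply Int.ModEq.pow
      have : (C : ℤ) = B + (d : ℤ) ^ 2 := by exact_mod_cast hdiff
      rw [this]
      refine (Int.modEq_iff_dvd.2 ?_)
      exact ⟨-(d : ℤ), by ring⟩
    have h3 : (d : ℤ) ∣ 2 * (B : ℤ) ^ x := by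
      have h4 : (d : ℤ) ∣ (C : ℤ) ^ x + (B : ℤ) ^ x := by exact_mod_cast h1
      have h5 : (d : ℤ) ∣ (B : ℤ) ^ x - (C : ℤ) ^ x := Int.modEq_iff_dvd.1 h2
      have h6 := dvd_add h4 h5
      have h7 : (C : ℤ) ^ x + (B : ℤ) ^ x + ((B : ℤ) ^ x - (C : ℤ) ^ x) = 2 * (B : ℤ) ^ x := by
        ring
      rwa [h7] at h6
    have h4 : d ∣ 2 * B ^ x := by exact_mod_cast h3
    have h5 : Nat.Coprime d (2 * B ^ x) := hc2.mul_right (hdB.pow_right x)
    have h6 : d = 1 := Nat.Coprime.eq_one_of_dvd h5 h4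
    omega
  · refine core hK s d C B x y z hd9 h12 hC0 hB0 hCB hsum ?_ (by omega) hxy heq
    have h1 : (C : ℤ) - B = (d : ℤ) ^ 2 := by
      have : (C : ℤ) = B + (d : ℤ) ^ 2 := by exact_mod_cast hdiff
      rw [this]
      ring
    rw [h1, abs_of_nonneg (by positivity)]

end Pool.Agent.SHP.H76
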